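import Mathlib
import Pool.Agent.H92.BH.HDefs
import Pool.Agent.H92.BJ.JDefs

/-!
MP_5aa732_co, project BL92: odd-hole-free graphs without loaded hats.
-/

set_option autoImplicit false
set_option linter.unusedSectionVars false
set_option linter.unusedVariables false

namespace Pool.Agent.H92.BL

open SimpleGraph Finset Pool.Agent.H92.TD Pool.Agent.H92.BF Pool.Agent.H92.BG Pool.Agent.H92.BH
open Pool.Agent.H92.BJ

/-- first kind of loaded hat excluded: for a hat `w` of an even hole no claw has its centre `v ≠ w` and two leaves `a`,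
`b` in the component of `w` in the subgraph induced by `w` and the vertices without neighbour on the hole, and a third
leaf with at most the neighbours `i`, `j` on the hole. -/
def Load1 {V : Type} (G : SimpleGraph V) : Prop :=
  ∀ (k : ℕ) (f : SimpleGraph.cycleGraph (2 * k + 4) ↪g G) (i j : Fin (2 * k + 4)) (w v a b c : V)
    (p : G.Walk w v),
    (SimpleGraph.cycleGraph (2 * k + 4)).Adj i j → (∀ l, G.Adj w (f l) ↔ (l = i ∨ l = j)) →
    Clw G v a b c → v ≠ w → (∀ x ∈ p.support, x = w ∨ ∀ l, ¬ G.Adj x (f l)) →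
    (a = w ∨ ∀ l, ¬ G.Adj a (f l)) → (b = w ∨ ∀ l, ¬ G.Adj b (f l)) →
    (∀ l, G.Adj c (f l) → l = i ∨ l = j) → False

/-- `z` has on the hole at most the neighbours `i`, `j`, or the same neighbours as the vertex `j` of the hole -/
def Lt {V : Type} (G : SimpleGraph V) {k : ℕ} (f : SimpleGraph.cycleGraph (2 * k + 4) ↪g G)
    (i j : Fin (2 * k + 4)) (z : V) : Prop :=
  (∀ l, G.Adj z (f l) → l = i ∨ l = j) ∨ (∀ l, G.Adj z (f l) ↔ G.Adj (f j) (f l))

/-- second kind of loaded hat excluded -/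
def Load2 {V : Type} (G : SimpleGraph V) : Prop :=
  ∀ (k : ℕ) (f : SimpleGraph.cycleGraph (2 * k + 4) ↪g G) (i j : Fin (2 * k + 4)) (w a b c : V),
    (SimpleGraph.cycleGraph (2 * k + 4)).Adj i j → (∀ l, G.Adj w (f l) ↔ (l = i ∨ l = j)) →
    Clw G w a b c → Lt G f i j a → Lt G f i j b → Lt G f i j c →
    ¬ (G.Adj (f i) a ∧ G.Adj (f i) b ∧ G.Adj (f i) c) →
    ¬ (G.Adj (f j) a ∧ G.Adj (f j) b ∧ G.Adj (f j) c) → False

/-- `Z` is a largest stable set contained in the neighbourhood of a vertex -/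
def Mx {V : Type} (G : SimpleGraph V) (Z : Finset V) : Prop :=
  ∀ (w : V) (Z' : Finset V), (∀ z ∈ Z', G.Adj w z) → (∀ z ∈ Z', ∀ z' ∈ Z', ¬ G.Adj z z') →
    Z'.card ≤ Z.card

variable {V : Type} {G : SimpleGraph V} {v : V} {d : V → ℕ} {Z : Finset V}

theorem Clw.perm1 {v a b c : V} (h : Clw G v a b c) : Clw G v b a c := by
  obtain ⟨h1, h2, h3, h4, h5, h6, h7, h8, h9⟩ := h
  exact ⟨h2, h1, h3, Ne.symm h4, h6, h5, fun e => h7 e.symm, h9, h8⟩

theorem bl_1 (hh : Load1 G) {n : ℕ} {p : ℕ → V}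
    (hp : IP G n p) (hodd : Odd n) {x x' w u a b c : V} (hx0 : G.Adj x (p 0))
    (hx : ∀ j, 0 < j → j ≤ n → ¬ G.Adj x (p j)) (hxne : ∀ j, j ≤ n → x ≠ p j)
    (hxn : G.Adj x' (p n)) (hx' : ∀ j, j < n → ¬ G.Adj x' (p j)) (hxne' : ∀ j, j ≤ n → x' ≠ p j)
    (hxx : G.Adj x x') (hwx : G.Adj w x) (hwx' : G.Adj w x') (hw : ∀ j, j ≤ n → ¬ G.Adj w (p j))
    (huw : u ≠ w) (q : G.Walk w u)
    (hq : ∀ y ∈ q.support, y = w ∨ (¬ G.Adj y x ∧ ¬ G.Adj y x' ∧ ∀ j, j ≤ n → ¬ G.Adj y (p j)))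
    (hcl : Clw G u a b c)
    (hal : a = w ∨ (¬ G.Adj a x ∧ ¬ G.Adj a x' ∧ ∀ j, j ≤ n → ¬ G.Adj a (p j)))
    (hbl : b = w ∨ (¬ G.Adj b x ∧ ¬ G.Adj b x' ∧ ∀ j, j ≤ n → ¬ G.Adj b (p j)))
    (hcc : ∀ j, j ≤ n → ¬ G.Adj c (p j)) : False := by
  obtain ⟨k, f, i, j, hij, hi, hj, hl⟩ := bh_cyc hp hodd hx0 hx hxne hxn hx' hxne' hxx
  have far : ∀ y, (¬ G.Adj y x ∧ ¬ G.Adj y x' ∧ ∀ j, j ≤ n → ¬ G.Adj y (p j)) →
      ∀ l, ¬ G.Adj y (f l) := by
    rintro y ⟨h1, h2, h3⟩ l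
    rcases hl l with rfl | rfl | ⟨r, hr, e⟩
    · rw [hi]
      exact h1
    · rw [hj]
      exact h2
    · rw [e]
      exact h3 r hr
  refine hh k f i j w u a b c q hij ?_ hcl huw ?_ ?_ ?_ ?_
  · intro l
    constructor
    · intro ha
      rcases hl l with h1 | h1 | ⟨r, hr, e⟩
      · exact Or.inl h1
      · exact Or.inr h1
      · rw [e] at ha
        exact absurd ha (hw r hr)
    · rintro (rfl | rfl)
      · rw [hi]
        exact hwx
      · rw [hj]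
        exact hwx'
  · intro y hy
    rcases hq y hy with h1 | h1
    · exact Or.inl h1
    · exact Or.inr (far y h1)
  · rcases hal with h1 | h1
    · exact Or.inl h1
    · exact Or.inr (far a h1)
  · rcases hbl with h1 | h1
    · exact Or.inl h1
    · exact Or.inr (far b h1)
  · intro l ha
    rcases hl l with h1 | h1 | ⟨r, hr, e⟩
    · exact Or.inl h1
    · exact Or.inr h1
    · rw [e] at ha
      exact absurd ha (hcc r hr)

theorem bl_2 (hh : Load2 G) {n : ℕ} {p : ℕ → V}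
    (hp : IP G n p) (hodd : Odd n) {x x' w a b c : V} (hx0 : G.Adj x (p 0))
    (hx : ∀ j, 0 < j → j ≤ n → ¬ G.Adj x (p j)) (hxne : ∀ j, j ≤ n → x ≠ p j)
    (hxn : G.Adj x' (p n)) (hx' : ∀ j, j < n → ¬ G.Adj x' (p j)) (hxne' : ∀ j, j ≤ n → x' ≠ p j)
    (hxx : G.Adj x x') (hwx : G.Adj w x) (hwx' : G.Adj w x') (hw : ∀ j, j ≤ n → ¬ G.Adj w (p j))
    (hcl : Clw G w a b c)
    (hT : ∀ z, (z = a ∨ z = b ∨ z = c) → (∀ r, r ≤ n → ¬ G.Adj z (p r)) ∨
      (G.Adj z x ∧ ¬ G.Adj z x' ∧ ∀ r, r ≤ n → (G.Adj z (p r) ↔ G.Adj x' (p r))))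
    (h1 : ¬ (G.Adj x a ∧ G.Adj x b ∧ G.Adj x c))
    (h2 : ¬ (G.Adj x' a ∧ G.Adj x' b ∧ G.Adj x' c)) : False := by
  obtain ⟨k, f, i, j, hij, hi, hj, hl⟩ := bh_cyc hp hodd hx0 hx hxne hxn hx' hxne' hxx
  have hLt : ∀ z, (z = a ∨ z = b ∨ z = c) → Lt G f i j z := by
    intro z hz
    rcases hT z hz with h3 | ⟨h3, h4, h5⟩
    · left
      intro l ha
      rcases hl l with h1 | h1 | ⟨r, hr, e⟩
      · exact Or.inl h1
      · exact Or.inr h1
      · rw [e] at ha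
        exact absurd ha (h3 r hr)
    · right
      intro l
      rcases hl l with rfl | rfl | ⟨r, hr, e⟩
      · rw [hi, hj]
        exact ⟨fun _ => hxx.symm, fun _ => h3⟩
      · rw [hj]
        exact ⟨fun e => absurd e h4, fun e => absurd e (G.loopless.irrefl _)⟩
      · rw [e, hj]
        exact h5 r hr
  refine hh k f i j w a b c hij ?_ hcl (hLt a (Or.inl rfl)) (hLt b (Or.inr (Or.inl rfl)))
    (hLt c (Or.inr (Or.inr rfl))) (by rw [hi]; exact h1) (by rw [hj]; exact h2)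
  intro l
  constructor
  · intro ha
    rcases hl l with h1 | h1 | ⟨r, hr, e⟩
    · exact Or.inl h1
    · exact Or.inr h1
    · rw [e] at ha
      exact absurd ha (hw r hr)
  · rintro (rfl | rfl)
    · rw [hi]
      exact hwx
    · rw [hj]
      exact hwx'

end Pool.Agent.H92.BL
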