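import Mathlib
import Pool.Agent.H92.BG.GAsm
import Pool.Agent.H92.BJ.JCls
import Pool.Agent.H92.BL.LDefs

/-!
MP_5aa732_co, project BL92: claw-free graphs, `P_5`-free graphs and graphs with few bulls have no loaded hats.
-/

set_option autoImplicit false
set_option linter.unusedSectionVars false
set_option linter.unusedVariables false

namespace Pool.Agent.H92.BL

open SimpleGraph Finset Pool.Agent.H92.TD Pool.Agent.H92.BF Pool.Agent.H92.BG Pool.Agent.H92.BH
open Pool.Agent.H92.BJ

variable {V : Type} {G : SimpleGraph V}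

theorem lcl_ant {k : ℕ} (f : SimpleGraph.cycleGraph (2 * k + 4) ↪g G) {w v : V}
    (p : G.Walk w v) (hvw : v ≠ w)
    (hp : ∀ x ∈ p.support, x = w ∨ ∀ l, ¬ G.Adj x (f l)) : ∃ u, G.Adj w u ∧ ∀ l, ¬ G.Adj u (f l) := by
  cases p with
  | nil => exact absurd rfl hvw
  | cons hadj q =>
    rename_i y
    have hy : y ∈ (SimpleGraph.Walk.cons hadj q).support := by
      rw [SimpleGraph.Walk.support_cons]
      exact List.mem_cons_of_mem _ (SimpleGraph.Walk.start_mem_support q)
    rcases hp y hy with h | h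
    · exact absurd h hadj.ne'
    · exact ⟨y, hadj, h⟩

theorem lcl_claw (h : ∀ v a b c : V, ¬ Clw G v a b c) : Load1 G ∧ Load2 G := by
  constructor
  · intro k f i j w v a b c p hij hw hcl hvw hp ha hb _
    exact h v a b c hcl
  · intro k f i j w a b c hij hw hcl ha hb hc h1 h2
    exact h w a b c hcl

/-- a leaf which is not adjacent to `f i` has at most the neighbour `f j` on the hole -/
theorem lcl_type {k : ℕ} {f : SimpleGraph.cycleGraph (2 * k + 4) ↪g G}
    {i j : Fin (2 * k + 4)} (hij : (SimpleGraph.cycleGraph (2 * k + 4)).Adj i j) {z : V}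
    (hz : Lt G f i j z) (hn : ¬ G.Adj (f i) z) : ∀ l, G.Adj z (f l) → l = j := by
  intro l hl
  rcases hz with h | h
  · rcases h l hl with h1 | h1
    · rw [h1] at hl
      exact absurd hl.symm hn
    · exact h1
  · exact absurd ((h i).2 (f.map_adj_iff.2 hij.symm)).symm hn

theorem lcl_P5 (hb : IsEmpty (SimpleGraph.pathGraph 5 ↪g G)) : Load1 G ∧ Load2 G := by
  constructor
  · intro k f i j w v a b c p hij hw hcl hvw hp _ _ _
    obtain ⟨u, hwu, hu⟩ := lcl_ant f p hvw hp
    obtain ⟨φ⟩ := cls_p5 f hij hw hwu (fun l e => absurd e (hu l))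
    exact hb.false φ
  · intro k f i j w a b c hij hw hcl ha hbb hc h1 h2
    have key : ∀ z, G.Adj w z → Lt G f i j z → ¬ G.Adj (f i) z → False := by
      intro z hwz hz hn
      obtain ⟨φ⟩ := cls_p5 f hij.symm (fun l => (hw l).trans or_comm) hwz (lcl_type hij hz hn)
      exact hb.false φ
    by_cases c1 : G.Adj (f i) a
    · by_cases c2 : G.Adj (f i) b
      · by_cases c3 : G.Adj (f i) c
        · exact h1 ⟨c1, c2, c3⟩
        · exact key c hcl.2.2.1 hc c3
      · exact key b hcl.2.1 hbb c2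
    · exact key a hcl.1 ha c1

/-- the second kind of loaded hat for graphs with few bulls -/
theorem lcl_few2 (h1 : B1free G) (h2 : B2free G) : Load2 G := by
  intro k f i j w a0 b0 c0 hij hw hcl0 ha0 hb0 hc0 hxi hxj
  obtain ⟨l1, l2, p1, p2, p3, p4, p5, p6, p7, p8⟩ := cls_next (by omega) i j hij
  obtain ⟨m1, m2, q1, q2, q3, q4, q5, q6, q7, q8⟩ := cls_next (by omega) j i hij.symm
  have wx : G.Adj w (f i) := (hw i).2 (Or.inl rfl)
  have wx' : G.Adj w (f j) := (hw j).2 (Or.inr rfl)
  have xx' : G.Adj (f i) (f j) := f.map_adj_iff.2 hij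
  have xm : G.Adj (f i) (f m1) := f.map_adj_iff.2 q1
  have x'l : G.Adj (f j) (f l1) := f.map_adj_iff.2 p1
  have wm : ¬ G.Adj w (f m1) := fun e => by
    rcases (hw m1).1 e with h | h
    · exact q4 h
    · exact q3 h
  have wl : ¬ G.Adj w (f l1) := fun e => by
    rcases (hw l1).1 e with h | h
    · exact p3 h
    · exact p4 h
  have x'm : ¬ G.Adj (f j) (f m1) := fun e => q8 (f.map_adj_iff.1 e)
  have xl : ¬ G.Adj (f i) (f l1) := fun e => p8 (f.map_adj_iff.1 e)
  -- no leaf is adjacent to `f m1`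
  have hm : ∀ z, Lt G f i j z → ¬ G.Adj (f m1) z := by
    intro z hz e
    rcases hz with h | h
    · rcases h m1 e.symm with h' | h'
      · exact q4 h'
      · exact q3 h'
    · exact x'm ((h m1).1 e.symm)
  -- a leaf not adjacent to `f i` is not adjacent to `f l1`
  have hl : ∀ z, Lt G f i j z → ¬ G.Adj (f i) z → ¬ G.Adj (f l1) z := by
    intro z hz hn e
    exact p4 (lcl_type hij hz hn l1 e.symm)
  have hne : ∀ z, Lt G f i j z → f i ≠ z := by
    rintro z hz rfl
    exact hm _ hz xm.symm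
  have two : ∀ a b c : V, G.Adj w a → G.Adj w b → G.Adj w c → a ≠ b → ¬ G.Adj a b → ¬ G.Adj a c →
      ¬ G.Adj b c → Lt G f i j a → Lt G f i j b → Lt G f i j c → ¬ G.Adj (f i) a →
      ¬ G.Adj (f i) b → ¬ (G.Adj (f j) a ∧ G.Adj (f j) b ∧ G.Adj (f j) c) → False := by
    intro a b c hwa hwb hwc nab jab jac jbc ha hb hc xa xb hj
    have am := hm a ha
    have bm := hm b hb
    have cm := hm c hc
    have al := hl a ha xa
    have bl := hl b hb xb
    by_cases ja : G.Adj (f j) a
    · by_cases jb : G.Adj (f j) b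
      · have jc : ¬ G.Adj (f j) c := fun e => hj ⟨ja, jb, e⟩
        by_cases cx : G.Adj (f i) c
        · exact h1 a b w (f i) (f m1) c hwa.symm hwb.symm wx xm hwc.symm cx.symm nab jab
            (fun e => xa e.symm) (fun e => am e.symm) wm jac cm (fun e => xb e.symm)
            (fun e => bm e.symm) jbc
        · exact h2 c w (f j) (f l1) a b hwc.symm wx' x'l hwa.symm ja.symm hwb.symm jb.symm nab jab
            (fun e => jc e.symm) (fun e => hl c hc cx e.symm) wl (fun e => jac e.symm) al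
            (fun e => jbc e.symm) bl
      · exact h2 b w (f j) (f l1) (f i) a hwb.symm wx' x'l wx.symm xx' hwa.symm ja.symm (hne a ha)
          xa (fun e => jb e.symm) (fun e => bl e.symm) wl (fun e => xb e.symm)
          (fun e => xl e.symm) (fun e => jab e.symm) al
    · by_cases jb : G.Adj (f j) b
      · exact h2 a w (f j) (f l1) (f i) b hwa.symm wx' x'l wx.symm xx' hwb.symm jb.symm (hne b hb)
          xb (fun e => ja e.symm) (fun e => al e.symm) wl (fun e => xa e.symm)
          (fun e => xl e.symm) jab bl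
      · exact h1 a b w (f i) (f m1) (f j) hwa.symm hwb.symm wx xm wx'.symm xx'.symm nab jab
          (fun e => xa e.symm) (fun e => am e.symm) wm (fun e => ja e.symm) (fun e => x'm e.symm)
          (fun e => xb e.symm) (fun e => bm e.symm) (fun e => jb e.symm)
  have core : ∀ a b c : V, Clw G w a b c → Lt G f i j a → Lt G f i j b → Lt G f i j c →
      ¬ G.Adj (f i) a → ¬ (G.Adj (f j) a ∧ G.Adj (f j) b ∧ G.Adj (f j) c) → False := by
    intro a b c hcl ha hb hc xa hj
    obtain ⟨hwa, hwb, hwc, nab, nac, nbc, jab, jac, jbc⟩ := hcl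
    by_cases cb : G.Adj (f i) b
    · by_cases cc : G.Adj (f i) c
      · exact h2 a w (f i) (f m1) b c hwa.symm wx xm hwb.symm cb.symm hwc.symm cc.symm nbc jbc
          (fun e => xa e.symm) (fun e => hm a ha e.symm) wm jab (hm b hb) jac (hm c hc)
      · exact two a c b hwa hwc hwb nac jac jab (fun e => jbc e.symm) ha hc hb xa cc
          (fun e => hj ⟨e.1, e.2.2, e.2.1⟩)
    · exact two a b c hwa hwb hwc nab jab jac jbc ha hb hc xa cb hj
  by_cases c1 : G.Adj (f i) a0
  · by_cases c2 : G.Adj (f i) b0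
    · by_cases c3 : G.Adj (f i) c0
      · exact hxi ⟨c1, c2, c3⟩
      · obtain ⟨hwa, hwb, hwc, nab, nac, nbc, jab, jac, jbc⟩ := hcl0
        exact core c0 a0 b0 ⟨hwc, hwa, hwb, Ne.symm nac, Ne.symm nbc, nab, fun e => jac e.symm,
          fun e => jbc e.symm, jab⟩ hc0 ha0 hb0 c3 (fun e => hxj ⟨e.2.1, e.2.2, e.1⟩)
    · obtain ⟨hwa, hwb, hwc, nab, nac, nbc, jab, jac, jbc⟩ := hcl0
      exact core b0 a0 c0 ⟨hwb, hwa, hwc, Ne.symm nab, nbc, nac, fun e => jab e.symm, jbc, jac⟩ hb0
        ha0 hc0 c2 (fun e => hxj ⟨e.2.1, e.1, e.2.2⟩)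
  · exact core a0 b0 c0 hcl0 ha0 hb0 hc0 c1 hxj

/-- in a graph without long antennas all vertices of the component are adjacent to the hat -/
theorem lcl_walk (hh : HatFree G) {k : ℕ} (f : SimpleGraph.cycleGraph (2 * k + 4) ↪g G)
    {i j : Fin (2 * k + 4)} {w : V} (hij : (SimpleGraph.cycleGraph (2 * k + 4)).Adj i j)
    (hw : ∀ l, G.Adj w (f l) ↔ (l = i ∨ l = j)) {s y : V} (p : G.Walk s y)
    (hp : ∀ x ∈ p.support, x = w ∨ ∀ l, ¬ G.Adj x (f l))
    (hs : s = w ∨ (G.Adj w s ∧ ∀ l, ¬ G.Adj s (f l))) :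
    y = w ∨ (G.Adj w y ∧ ∀ l, ¬ G.Adj y (f l)) := by
  induction p with
  | nil => exact hs
  | @cons u t y hadj q ih =>
    refine ih ?_ ?_
    · intro x hx
      exact hp x (by rw [SimpleGraph.Walk.support_cons]; exact List.mem_cons_of_mem _ hx)
    · have ht : t ∈ (SimpleGraph.Walk.cons hadj q).support := by
        rw [SimpleGraph.Walk.support_cons]
        exact List.mem_cons_of_mem _ (SimpleGraph.Walk.start_mem_support q)
      rcases hp t ht with h | h
      · exact Or.inl h
      · right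
        refine ⟨?_, h⟩
        rcases hs with hs | ⟨hs, hs'⟩
        · rw [← hs]
          exact hadj
        · by_contra hcon
          exact hh k f i j w u t hij hw hs hadj hcon hs' h

theorem lcl_few (h1 : B1free G) (h2 : B2free G) (hh : HatFree G) : Load1 G ∧ Load2 G := by
  refine ⟨?_, lcl_few2 h1 h2⟩
  intro k f i j w v a b c p hij hw hcl hvw hp ha hb _
  obtain ⟨m1, m2, q1, q2, q3, q4, q5, q6, q7, q8⟩ := cls_next (by omega) j i hij.symm
  obtain ⟨hva, hvb, hvc, nab, nac, nbc, jab, jac, jbc⟩ := hcl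
  rcases lcl_walk hh f hij hw p hp (Or.inl rfl) with hv | ⟨hwv, hvf⟩
  · exact hvw hv
  have near : ∀ z, G.Adj v z → (z = w ∨ ∀ l, ¬ G.Adj z (f l)) → z ≠ w → G.Adj w z ∧
      ∀ l, ¬ G.Adj z (f l) := by
    intro z hvz hz hzw
    rcases hz with h | h
    · exact absurd h hzw
    · refine ⟨?_, h⟩
      by_contra hcon
      exact hh k f i j w v z hij hw hwv hvz hcon hvf h
  by_cases ea : a = w
  · subst ea
    exact jab (near b hvb hb (Ne.symm nab)).1
  by_cases eb : b = w
  · subst eb
    exact jab (near a hva ha ea).1.symm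
  obtain ⟨hwa, haf⟩ := near a hva ha ea
  obtain ⟨hwb, hbf⟩ := near b hvb hb eb
  have wx : G.Adj w (f i) := (hw i).2 (Or.inl rfl)
  have wx' : G.Adj w (f j) := (hw j).2 (Or.inr rfl)
  have wm : ¬ G.Adj w (f m1) := fun e => by
    rcases (hw m1).1 e with h | h
    · exact q4 h
    · exact q3 h
  exact h1 a b w (f i) (f m1) (f j) hwa.symm hwb.symm wx (f.map_adj_iff.2 q1) wx'.symm
    (f.map_adj_iff.2 hij.symm) nab jab (haf i) (haf m1) wm (haf j)
    (fun e => q8 (f.map_adj_iff.1 e.symm)) (hbf i) (hbf m1) (hbf j)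

end Pool.Agent.H92.BL
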