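import Mathlib
import Pool.Agent.H92.BH.HDefs
import Pool.Agent.H92.BH.HU
import Pool.Agent.H92.BJ.JDefs
import Pool.Agent.H92.BL.LDefs

/-!
MP_5aa732_co, project BL92: the lemma on paths between two vertices of layer two, and induced paths of odd length with
ends in layer i and interior in higher layers.
-/

set_option autoImplicit false
set_option linter.unusedSectionVars false
set_option linter.unusedVariables false

namespace Pool.Agent.H92.BL

open SimpleGraph Finset Pool.Agent.H92.TD Pool.Agent.H92.BF Pool.Agent.H92.BG Pool.Agent.H92.BH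
open Pool.Agent.H92.BJ

variable {V : Type} {G : SimpleGraph V} {v : V} {d : V → ℕ} {Z : Finset V}

theorem bl_U (h : LayC G v d Z) (h3 : 3 ≤ Z.card) (hc : Load2 G)
    (hu : NoUp G d 1)
    {n : ℕ} {p : ℕ → V} (hodd : Odd n)
    (hp : IP G n p) (hd0 : d (p 0) = 2) (hdn : d (p n) = 2)
    (hin : ∀ j, 0 < j → j < n → 2 < d (p j)) {x x' : V} (hx : d x = 1) (hx' : d x' = 1)
    (hx0 : G.Adj x (p 0)) (hxn : ¬ G.Adj x (p n)) (hx'n : G.Adj x' (p n)) (hx'0 : ¬ G.Adj x' (p 0))
    (hz : ∀ z ∈ Z, ¬ G.Adj z (p 0)) (hor : x' ∈ Z ∨ ∀ z ∈ Z, ¬ G.Adj z (p n)) : False := by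
  have hv := h.dv
  have hge : ∀ j, j ≤ n → 2 ≤ d (p j) := by
    intro j hj
    rcases Nat.eq_zero_or_pos j with h4 | h4
    · rw [h4, hd0]
    · rcases Nat.lt_or_ge j n with h5 | h5
      · exact (hin j h4 h5).le
      · have h6 : j = n := by omega
        rw [h6, hdn]
  have hxx : G.Adj x x' := bh_A h hu hodd hp hd0 hdn hin hx hx' hx0 hxn hx'n hx'0
  have f1 : ∀ j, 0 < j → j ≤ n → ¬ G.Adj x (p j) := fun j h1 h2 => by
    rcases Nat.lt_or_ge j n with h5 | h5
    · have := hin j h1 h5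
      exact h.nadj (by omega)
    · have h6 : j = n := by omega
      rw [h6]
      exact hxn
  have f2 : ∀ j, j < n → ¬ G.Adj x' (p j) := fun j h2 => by
    rcases Nat.eq_zero_or_pos j with h4 | h4
    · rw [h4]
      exact hx'0
    · have := hin j h4 h2
      exact h.nadj (by omega)
  have b1 : ∀ j, j ≤ n → x ≠ p j := fun j hj => ne_of_d (d := d) (by have := hge j hj; omega)
  have b2 : ∀ j, j ≤ n → x' ≠ p j := fun j hj => ne_of_d (d := d) (by have := hge j hj; omega)
  have hvp : ∀ j, j ≤ n → ¬ G.Adj v (p j) := fun j hj => h.nadj (by have := hge j hj; omega)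
  have hzp' : ∀ z ∈ Z, ∀ j, j < n → ¬ G.Adj z (p j) := by
    intro z hzZ j hj
    have e := h.dz hzZ
    rcases Nat.eq_zero_or_pos j with h4 | h4
    · rw [h4]
      exact hz z hzZ
    · have := hin j h4 hj
      exact h.nadj (by omega)
  have hzp : ∀ z ∈ Z, ¬ G.Adj z (p n) → ∀ j, j ≤ n → ¬ G.Adj z (p j) := by
    intro z hzZ hzn j hj
    rcases Nat.lt_or_ge j n with h5 | h5
    · exact hzp' z hzZ j h5
    · have h6 : j = n := by omega
      rw [h6]
      exact hzn
  obtain ⟨z1, hz1, hxz1⟩ : ∃ z1 ∈ Z, ¬ G.Adj x z1 := by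
    by_contra hcon
    push Not at hcon
    have h1 := h.Zm x (p 0) hcon hx0 hz
    have h2 := h.dz h1
    omega
  have hzn : ∀ z ∈ Z, ¬ G.Adj x z → ¬ G.Adj z (p n) := fun z hzZ hxz e =>
    hxz (bh_A h hu hodd hp hd0 hdn hin hx (h.dz hzZ) hx0 hxn e (hz z hzZ))
  by_cases hx'Z : x' ∈ Z
  · have hne : x' ≠ z1 := by
      rintro rfl
      exact hxz1 hxx
    obtain ⟨c, hcZ, hc1, hc2⟩ := pick1 h3 x' z1
    refine bl_2 hc hp hodd hx0 f1 b1 hx'n f2 b2 hxx (h.one hx) (h.one hx') hvp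
      (clw_of h hx'Z hz1 hcZ hne hc1 hc2) ?_ (fun e => hxz1 e.2.1)
      (fun e => (G.loopless.irrefl _) e.1)
    rintro z (rfl | rfl | rfl)
    · right
      exact ⟨hxx.symm, G.loopless.irrefl _, fun r _ => Iff.rfl⟩
    · left
      exact hzp z hz1 (hzn z hz1 hxz1)
    · by_cases c1 : G.Adj z (p n)
      · right
        have hxz : G.Adj x z := by
          by_contra hcon
          exact hzn z hcZ hcon c1
        refine ⟨hxz.symm, fun e => h.Zs z hcZ x' hx'Z e, ?_⟩
        intro r hr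
        rcases Nat.lt_or_ge r n with h5 | h5
        · exact iff_of_false (hzp' z hcZ r h5) (f2 r h5)
        · have h6 : r = n := by omega
          rw [h6]
          exact iff_of_true c1 hx'n
      · left
        exact hzp z hcZ c1
  · have hor' : ∀ z ∈ Z, ¬ G.Adj z (p n) := by
      rcases hor with h1 | h1
      · exact absurd h1 hx'Z
      · exact h1
    obtain ⟨z2, hz2, hxz2⟩ : ∃ z2 ∈ Z, ¬ G.Adj x' z2 := by
      by_contra hcon
      push Not at hcon
      have h1 := h.Zm x' (p n) hcon hx'n hor'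
      have h2 := h.dz h1
      omega
    have fin : ∀ a ∈ Z, ∀ b ∈ Z, ∀ c ∈ Z, a ≠ b → a ≠ c → b ≠ c →
        ¬ (G.Adj x a ∧ G.Adj x b ∧ G.Adj x c) → ¬ (G.Adj x' a ∧ G.Adj x' b ∧ G.Adj x' c) →
        False := by
      intro a ha b hb c hcZ hab hac hbc h1 h2
      refine bl_2 hc hp hodd hx0 f1 b1 hx'n f2 b2 hxx (h.one hx) (h.one hx') hvp
        (clw_of h ha hb hcZ hab hac hbc) ?_ h1 h2
      rintro z (rfl | rfl | rfl)
      · exact Or.inl (hzp z ha (hor' z ha))
      · exact Or.inl (hzp z hb (hor' z hb))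
      · exact Or.inl (hzp z hcZ (hor' z hcZ))
    by_cases h12 : z1 = z2
    · subst h12
      obtain ⟨b, hb, hb1, -⟩ := pick1 h3 z1 z1
      obtain ⟨c, hcZ, hc1, hc2⟩ := pick1 h3 z1 b
      exact fin z1 hz1 b hb c hcZ hb1 hc1 hc2 (fun e => hxz1 e.1) (fun e => hxz2 e.1)
    · obtain ⟨c, hcZ, hc1, hc2⟩ := pick1 h3 z1 z2
      exact fin z1 hz1 z2 hz2 c hcZ h12 hc1 hc2 (fun e => hxz1 e.1) (fun e => hxz2 e.2.1)

theorem bl_up2 (h : LayC G v d Z) (h3 : 3 ≤ Z.card) (ho : OddHoleFree G)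
    (hc : Load2 G) (hu : NoUp G d 1) : NoUp G d 2 := by
  intro n p hodd hn3 hp hd0 hdn hin
  have hne : ∀ a, d a = 1 → ∀ j, j ≤ n → p j ≠ a := by
    intro a ha j hj
    rcases Nat.eq_zero_or_pos j with h4 | h4
    · rw [h4]
      exact ne_of_d (d := d) (by omega)
    · rcases Nat.lt_or_ge j n with h5 | h5
      · have := hin j h4 h5
        exact ne_of_d (d := d) (by omega)
      · have h6 : j = n := by omega
        rw [h6]
        exact ne_of_d (d := d) (by omega)
  have hcom : ∀ a, d a = 1 → G.Adj a (p 0) → ¬ G.Adj a (p n) := by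
    intro a ha h0 hn
    refine bg_odd ho hp hodd hn3 h0 hn ?_ (hne a ha)
    intro j h1 h2
    have := hin j h1 h2
    exact h.nadj (by omega)
  obtain ⟨x, hx0, hxd⟩ := h.d2 (p 0) (by omega)
  obtain ⟨x', hxn, hxd'⟩ := h.d2 (p n) (by omega)
  have hx : d x = 1 := by omega
  have hx' : d x' = 1 := by omega
  by_cases c0 : ∃ z ∈ Z, G.Adj z (p 0)
  · obtain ⟨z, hz, hz0⟩ := c0
    have hzd := h.dz hz
    by_cases c1 : ∃ z' ∈ Z, G.Adj z' (p n)
    · obtain ⟨z', hz', hz'n⟩ := c1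
      have hzd' := h.dz hz'
      exact h.Zs z hz z' hz' (bh_A h hu hodd hp hd0 hdn hin hzd hzd' hz0 (hcom z hzd hz0) hz'n
        (fun e => hcom z' hzd' e hz'n))
    · push Not at c1
      refine bl_U h h3 hc hu (n := n) (p := fun j => p (n - j)) hodd (ip_rev hp) ?_ ?_ ?_
        (x := x') (x' := z) hx' hzd ?_ ?_ ?_ ?_ ?_ (Or.inl hz)
      · simpa using hdn
      · simpa using hd0
      · intro j h1 h2
        exact hin (n - j) (by omega) (by omega)
      · simpa using hxn.symm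
      · intro e
        have e' : G.Adj x' (p 0) := by simpa using e
        exact hcom x' hx' e' hxn.symm
      · simpa using hz0
      · intro e
        have e' : G.Adj z (p n) := by simpa using e
        exact c1 z hz e'
      · intro z1 hz1 e
        have e' : G.Adj z1 (p n) := by simpa using e
        exact c1 z1 hz1 e'
  · push Not at c0
    by_cases c1 : ∃ z' ∈ Z, G.Adj z' (p n)
    · obtain ⟨z', hz', hz'n⟩ := c1
      have hzd' := h.dz hz'
      exact bl_U h h3 hc hu hodd hp hd0 hdn hin hx hzd' hx0.symm (hcom x hx hx0.symm) hz'n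
        (c0 z' hz') c0 (Or.inl hz')
    · push Not at c1
      exact bl_U h h3 hc hu hodd hp hd0 hdn hin hx hx' hx0.symm (hcom x hx hx0.symm) hxn.symm
        (fun e => hcom x' hx' e hxn.symm) c0 (Or.inr c1)

/-- case `i = 1` of `bl_w`, when every neighbour of `x` in `Z` is a neighbour of `x'` -/
theorem bl_w1 (h : LayC G v d Z) (h3 : 3 ≤ Z.card) (hmx : Mx G Z)
    (hk : CompK G d 1) {x x' k' : V}
    (hx : d x = 2) (hx' : d x' = 2) (hkd' : d k' = 3)
    (hxx : G.Adj x x') (hxk' : G.Adj x' k') (hxn : ¬ G.Adj x k')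
    (hnest : ∀ z ∈ Z, G.Adj z x → G.Adj z x') :
    ∃ w a b, d w = 1 ∧ G.Adj w x ∧ G.Adj w x' ∧ a ∈ Z ∧ b ∈ Z ∧ a ≠ b ∧
      (a = w ∨ (¬ G.Adj a x ∧ ¬ G.Adj a x')) ∧ (b = w ∨ (¬ G.Adj b x ∧ ¬ G.Adj b x')) := by
  classical
  have hv := h.dv
  -- some member of `Z` is not adjacent to `x'`
  obtain ⟨t, htZ, ht⟩ : ∃ t ∈ Z, ¬ G.Adj t x' := by
    by_contra hcon
    push Not at hcon
    have h1 := h.Zm x' k' (fun z hz => (hcon z hz).symm) hxk'
      (fun z hz => h.nadj (by have := h.dz hz; omega))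
    have h2 := h.dz h1
    omega
  have htx : ¬ G.Adj t x := fun e => ht (hnest t htZ e)
  by_cases c1 : ∃ z ∈ Z, G.Adj z x
  · obtain ⟨z, hz, hzx⟩ := c1
    refine ⟨z, z, t, h.dz hz, hzx, hnest z hz hzx, hz, htZ, ?_, Or.inl rfl, Or.inr ⟨htx, ht⟩⟩
    rintro rfl
    exact htx hzx
  · push Not at c1
    obtain ⟨w, u, hwd, hud, hwx, hwx', hwu⟩ := bh_w h le_rfl hk hx hx' hxx
    -- two members of `Z` are not adjacent to `x'`
    obtain ⟨t2, ht2Z, ht2, hne⟩ : ∃ t2 ∈ Z, ¬ G.Adj t2 x' ∧ t ≠ t2 := by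
      by_contra hcon
      push Not at hcon
      have hadj : ∀ z ∈ Z, z ≠ t → G.Adj z x' := by
        intro z hz hzt
        by_contra hzx
        exact hzt (hcon z hz hzx).symm
      have hkZ : ∀ z ∈ Z, ¬ G.Adj z k' := fun z hz => h.nadj (by have := h.dz hz; omega)
      have hxZ : x ∉ Z := fun e => by
        have := h.dz e
        omega
      have hk'Z : k' ∉ Z := fun e => by
        have := h.dz e
        omega
      have hxk : x ≠ k' := ne_of_d (d := d) (by omega)
      have hir : ∀ y : V, ¬ G.Adj y y := fun y => G.loopless.irrefl y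
      have h4 := hmx x' (insert x (insert k' (Z.erase t)))
        (by
          intro z hz
          rcases Finset.mem_insert.1 hz with rfl | hz
          · exact hxx.symm
          rcases Finset.mem_insert.1 hz with rfl | hz
          · exact hxk'
          · rw [Finset.mem_erase] at hz
            exact (hadj z hz.2 hz.1).symm)
        (by
          intro z hz z' hz'
          have hcs : ∀ y, y ∈ insert x (insert k' (Z.erase t)) → y = x ∨ y = k' ∨ y ∈ Z := by
            intro y hy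
            rcases Finset.mem_insert.1 hy with e | e
            · exact Or.inl e
            rcases Finset.mem_insert.1 e with e | e
            · exact Or.inr (Or.inl e)
            · exact Or.inr (Or.inr (Finset.mem_of_mem_erase e))
          rcases hcs z hz with e1 | e1 | e1 <;> rcases hcs z' hz' with e2 | e2 | e2
          · rw [e1, e2]
            exact hir _
          · rw [e1, e2]
            exact hxn
          · rw [e1]
            exact fun e => c1 z' e2 e.symm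
          · rw [e1, e2]
            exact fun e => hxn e.symm
          · rw [e1, e2]
            exact hir _
          · rw [e1]
            exact fun e => hkZ z' e2 e.symm
          · rw [e2]
            exact c1 z e1
          · rw [e2]
            exact hkZ z e1
          · exact h.Zs z e1 z' e2)
      rw [Finset.card_insert_of_notMem, Finset.card_insert_of_notMem,
        Finset.card_erase_of_mem htZ] at h4
      · have : 0 < Z.card := Finset.card_pos.2 ⟨t, htZ⟩
        omega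
      · exact fun e => hk'Z (Finset.mem_of_mem_erase e)
      · intro e
        rcases Finset.mem_insert.1 e with e1 | e1
        · exact hxk e1
        · exact hxZ (Finset.mem_of_mem_erase e1)
    exact ⟨w, t, t2, hwd, hwx, hwx', htZ, ht2Z, hne, Or.inr ⟨htx, ht⟩,
      Or.inr ⟨c1 t2 ht2Z, ht2⟩⟩

/-- Adjacent vertices of layer `i + 1`, with private neighbours in layer `i + 2`, have a common neighbour `w` in layer
`i`, and two members `a`, `b` of `Z` are `w` or nonadjacent to both. -/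
theorem bl_w (h : LayC G v d Z) (h3 : 3 ≤ Z.card) (hmx : Mx G Z) (h5 : C5free G) {i : ℕ}
    (hi : 1 ≤ i) (hk : CompK G d i) {x x' k k' : V}
    (hx : d x = i + 1) (hx' : d x' = i + 1) (hkd : d k = i + 2) (hkd' : d k' = i + 2)
    (hxx : G.Adj x x') (hxk : G.Adj x k) (hxk' : G.Adj x' k') (hn : ¬ G.Adj x k')
    (hn' : ¬ G.Adj x' k) :
    ∃ w a b, d w = i ∧ G.Adj w x ∧ G.Adj w x' ∧ a ∈ Z ∧ b ∈ Z ∧ a ≠ b ∧
      (a = w ∨ (¬ G.Adj a x ∧ ¬ G.Adj a x')) ∧ (b = w ∨ (¬ G.Adj b x ∧ ¬ G.Adj b x')) := by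
  classical
  have hv := h.dv
  rcases Nat.lt_or_ge 1 i with hi2 | hi1
  · obtain ⟨w, u, hwd, hud, hwx, hwx', hwu⟩ := bh_w h hi hk hx hx' hxx
    obtain ⟨a, haZ, -, -⟩ := pick1 h3 v v
    obtain ⟨b, hbZ, hab, -⟩ := pick1 h3 a a
    have had := h.dz haZ
    have hbd := h.dz hbZ
    exact ⟨w, a, b, hwd, hwx, hwx', haZ, hbZ, hab, Or.inr ⟨h.nadj (by omega), h.nadj (by omega)⟩,
      Or.inr ⟨h.nadj (by omega), h.nadj (by omega)⟩⟩
  · have hi' : i = 1 := by omega
    subst hi'
    by_cases c1 : ∀ z ∈ Z, G.Adj z x → G.Adj z x'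
    · exact bl_w1 h h3 hmx hk hx hx' hkd' hxx hxk' hn c1
    by_cases c2 : ∀ z ∈ Z, G.Adj z x' → G.Adj z x
    · obtain ⟨w, a, b, h1, h2, h3', h4, h5', h6, h7, h8⟩ :=
        bl_w1 h h3 hmx hk hx' hx hkd hxx.symm hxk hn' c2
      exact ⟨w, a, b, h1, h3', h2, h4, h5', h6, h7.imp id (fun e => ⟨e.2, e.1⟩),
        h8.imp id (fun e => ⟨e.2, e.1⟩)⟩
    exfalso
    push Not at c1 c2
    obtain ⟨z, hz, hzx, hzx'⟩ := c1
    obtain ⟨z', hz', hz'x', hz'x⟩ := c2
    exact h5 v z x x' z' (h.Z1 z hz) hzx hxx hz'x'.symm (h.Z1 z' hz').symm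
      (h.nadj (by omega)) hzx' (fun ha => hz'x ha.symm)
      (h.nadj' (by omega)) (h.Zs z' hz' z hz)

theorem bl_hat (h : LayC G v d Z) (h3 : 3 ≤ Z.card) (hmx : Mx G Z) (h5 : C5free G)
    (ha : Load1 G) {i : ℕ}
    (hi : 1 ≤ i) (hk : CompK G d i) {n : ℕ} {p : ℕ → V} (hp : IP G n p) (hodd : Odd n)
    (hge : ∀ j, j ≤ n → i + 2 ≤ d (p j)) (h0 : d (p 0) = i + 2) (hn : d (p n) = i + 2)
    {x x' : V} (hxd : d x = i + 1) (hxd' : d x' = i + 1) (hx0 : G.Adj x (p 0))
    (hx : ∀ j, 0 < j → j ≤ n → ¬ G.Adj x (p j)) (hxne : ∀ j, j ≤ n → x ≠ p j)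
    (hxn : G.Adj x' (p n)) (hx' : ∀ j, j < n → ¬ G.Adj x' (p j)) (hxne' : ∀ j, j ≤ n → x' ≠ p j)
    (hxx : G.Adj x x') : False := by
  have hn1 : 1 ≤ n := hodd.pos
  have hv := h.dv
  obtain ⟨w, a, b, hwd, hwx, hwx', haZ, hbZ, hab, hax, hbx⟩ := bl_w h h3 hmx h5 hi hk hxd hxd' h0 hn
    hxx hx0 hxn (hx n (by omega) le_rfl) (hx' 0 (by omega))
  obtain ⟨c, hcZ, hac, hbc⟩ := pick1 h3 a b
  obtain ⟨q, hq⟩ := walk_down h i w hwd
  have had := h.dz haZ
  have hbd := h.dz hbZ
  refine bl_1 ha hp hodd hx0 hx hxne hxn hx' hxne' hxx hwx hwx'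
    (fun j hj => h.nadj (by have := hge j hj; omega)) (u := v) (ne_of_d (d := d) (by omega)) q ?_
    (clw_of h haZ hbZ hcZ hab hac hbc) ?_ ?_
    (fun j hj => h.nadj (by have := hge j hj; have := h.dz hcZ; omega))
  · intro y hy
    rcases hq y hy with h1 | h1
    · exact Or.inl h1
    · exact Or.inr ⟨h.nadj (by omega), h.nadj (by omega),
        fun j hj => h.nadj (by have := hge j hj; omega)⟩
  · rcases hax with h1 | h1
    · exact Or.inl h1
    · exact Or.inr ⟨h1.1, h1.2, fun j hj => h.nadj (by have := hge j hj; omega)⟩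
  · rcases hbx with h1 | h1
    · exact Or.inl h1
    · exact Or.inr ⟨h1.1, h1.2, fun j hj => h.nadj (by have := hge j hj; omega)⟩

theorem bl_upS (h : LayC G v d Z) (h3 : 3 ≤ Z.card) (hmx : Mx G Z) (h5 : C5free G)
    (ho : OddHoleFree G)
    (ha : Load1 G) {i : ℕ} (hi : 1 ≤ i)
    (hk : CompK G d i) (hu : NoUp G d (i + 1)) : NoUp G d (i + 2) := by
  intro n p hodd hn3 hp hd0 hdn hin
  have hge : ∀ j, j ≤ n → i + 2 ≤ d (p j) := by
    intro j hj
    rcases Nat.eq_zero_or_pos j with h4 | h4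
    · rw [h4, hd0]
    · rcases Nat.lt_or_ge j n with h5 | h5
      · exact (hin j h4 h5).le
      · have h6 : j = n := by omega
        rw [h6, hdn]
  obtain ⟨x, hx0, hxd⟩ := h.d2 (p 0) (by omega)
  obtain ⟨x', hxn, hxd'⟩ := h.d2 (p n) (by omega)
  have a1 : d x = i + 1 := by omega
  have a2 : d x' = i + 1 := by omega
  have b1 : ∀ j, j ≤ n → x ≠ p j := fun j hj => ne_of_d (d := d) (by have := hge j hj; omega)
  have b2 : ∀ j, j ≤ n → x' ≠ p j := fun j hj => ne_of_d (d := d) (by have := hge j hj; omega)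
  have c1 : ∀ j, 0 < j → j < n → ¬ G.Adj x (p j) := fun j h1 h2 =>
    h.nadj (by have := hin j h1 h2; omega)
  have c2 : ∀ j, 0 < j → j < n → ¬ G.Adj x' (p j) := fun j h1 h2 =>
    h.nadj (by have := hin j h1 h2; omega)
  by_cases e1 : G.Adj x (p n)
  · exact bg_odd ho hp hodd hn3 hx0.symm e1 c1 (fun j hj => (b1 j hj).symm)
  by_cases e2 : G.Adj x' (p 0)
  · exact bg_odd ho hp hodd hn3 e2 hxn.symm c2 (fun j hj => (b2 j hj).symm)
  have e3 : x ≠ x' := by
    rintro rfl
    exact e1 hxn.symm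
  have f1 : ∀ j, 0 < j → j ≤ n → ¬ G.Adj x (p j) := fun j h1 h2 => by
    rcases Nat.lt_or_ge j n with h5 | h5
    · exact c1 j h1 h5
    · have h6 : j = n := by omega
      rw [h6]
      exact e1
  have f2 : ∀ j, j < n → ¬ G.Adj x' (p j) := fun j h2 => by
    rcases Nat.eq_zero_or_pos j with h4 | h4
    · rw [h4]
      exact e2
    · exact c2 j h4 h2
  by_cases e4 : G.Adj x x'
  · exact bl_hat h h3 hmx h5 ha hi hk hp hodd hge hd0 hdn a1 a2 hx0.symm f1 b1 hxn.symm f2 b2 e4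
  · obtain ⟨r, hr, r0, rn, rj⟩ := bh_ext hp hx0.symm hxn.symm f1 f2 b1 b2 e3 e4
    refine hu (n + 2) r (hodd.add_even (by decide)) (by omega) hr (by rw [r0, a1]) (by rw [rn, a2])
      (fun j h1 h2 => ?_)
    rw [rj j h1 h2]
    have := hge (j - 1) (by omega)
    omega

end Pool.Agent.H92.BL
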